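import Pool.Agent.H5.OR.Targets3

set_option autoImplicit false

open scoped Classical

namespace Pool.Agent.H67.ORS

open ORg

theorem pf_SE : T_SE := by
  intro I H B B' A G _ _ _ _ _ f g a b e hst
  refine ⟨?_, ?_, ?_⟩
  · intro i h
    have h1 := hst.comm i h
    simp only [MonoidHom.comp_apply, MulEquiv.coe_toMonoidHom, MulEquiv.symm_apply_apply]
    exact h1
  · intro K _ u v huv
    obtain ⟨k, hk1, hk2⟩ := hst.lift K u (fun i => (v i).comp (e i).toMonoidHom) (by
      intro i h
      have h1 := huv i h
      simpa only [MonoidHom.comp_apply, MulEquiv.coe_toMonoidHom] using h1)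
    refine ⟨k, hk1, ?_⟩
    intro i x
    have h2 := hk2 i ((e i).symm x)
    simp only [MonoidHom.comp_apply, MulEquiv.coe_toMonoidHom, MulEquiv.apply_symm_apply] at h2
    simpa only [MonoidHom.comp_apply, MulEquiv.coe_toMonoidHom] using h2
  · intro K _ k l h1 h2
    refine hst.uniq K k l h1 ?_
    intro i x
    have h3 := h2 i (e i x)
    simp only [MonoidHom.comp_apply, MulEquiv.coe_toMonoidHom, MulEquiv.symm_apply_apply] at h3
    exact h3

end Pool.Agent.H67.ORS
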